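import Pool.Agent.Helper44.GF.Defs
import Pool.Agent.Helper67.LB.PLn

/-!
# Isodiametric inequality (module ISOD)
-/

open MeasureTheory Set Metric
open scoped ENNReal Pointwise

namespace Pool.Agent.Helper44.GF

/-- The Lebesgue measure version in `ℝᵏ`, for a general norm transported by a linear equivalence. -/
theorem isod_vol {k : ℕ} {E : Type} [NormedAddCommGroup E] [NormedSpace ℝ E]
    [MeasurableSpace E] [BorelSpace E] (e : (Fin k → ℝ) ≃L[ℝ] E) {A : Set E}
    (hA : MeasurableSet A) {R : ℝ} (hR : ∀ x ∈ A, ∀ y ∈ A, ‖x - y‖ ≤ 2 * R) :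
    volume (e ⁻¹' A) ≤ volume (e ⁻¹' closedBall (0 : E) R) := by
  classical
  have hme : Measurable (e : (Fin k → ℝ) → E) := e.continuous.measurable
  have hA' : MeasurableSet (e ⁻¹' A) := hme hA
  have hB' : MeasurableSet (e ⁻¹' closedBall (0 : E) R) := hme isClosed_closedBall.measurableSet
  have hN' : MeasurableSet (-(e ⁻¹' A)) := hA'.neg
  have key := Pool.Agent.Helper67.LB.pl_pi k
    (f := (e ⁻¹' A).indicator (fun _ => (1 : ℝ≥0∞)))
    (g := (-(e ⁻¹' A)).indicator (fun _ => (1 : ℝ≥0∞)))
    (h := (e ⁻¹' closedBall (0 : E) R).indicator (fun _ => (1 : ℝ≥0∞)))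
    (measurable_const.indicator hA') (measurable_const.indicator hN')
    (measurable_const.indicator hB') (l := 1 / 2) (m := 1 / 2) (by norm_num) (by norm_num)
    (by norm_num) (by
      intro x y
      by_cases hx : x ∈ e ⁻¹' A
      · by_cases hy : y ∈ -(e ⁻¹' A)
        · have hxy : (1 / 2 : ℝ) • x + (1 / 2 : ℝ) • y ∈ e ⁻¹' closedBall (0 : E) R := by
            have h1 := hR (e x) hx (e (-y)) hy
            rw [mem_preimage, mem_closedBall_zero_iff, map_add, map_smul, map_smul, ← smul_add,
              norm_smul]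
            rw [map_neg, sub_neg_eq_add] at h1
            rw [Real.norm_eq_abs, abs_of_pos (by norm_num : (0 : ℝ) < 1 / 2)]
            linarith
          rw [indicator_of_mem hx, indicator_of_mem hy, indicator_of_mem hxy]
          simp
        · rw [indicator_of_notMem hy, ENNReal.zero_rpow_of_pos (by norm_num), mul_zero]
          exact bot_le
      · rw [indicator_of_notMem hx, ENNReal.zero_rpow_of_pos (by norm_num), zero_mul]
        exact bot_le)
  rw [lintegral_indicator_const hA', lintegral_indicator_const hN', lintegral_indicator_const hB',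
    one_mul, one_mul, one_mul, Measure.measure_neg] at key
  rw [← ENNReal.rpow_add_of_nonneg _ _ (by norm_num) (by norm_num)] at key
  rwa [show (1 / 2 : ℝ) + 1 / 2 = 1 by norm_num, ENNReal.rpow_one] at key

theorem isod_meas {E : Type} [NormedAddCommGroup E] [NormedSpace ℝ E] [FiniteDimensional ℝ E]
    [MeasurableSpace E] [BorelSpace E] (μ : Measure E) [μ.IsAddHaarMeasure] {A : Set E}
    (hA : MeasurableSet A) {R : ℝ} (hR : ∀ x ∈ A, ∀ y ∈ A, ‖x - y‖ ≤ 2 * R) :
    μ A ≤ μ (closedBall (0 : E) R) := by
  have hk : Module.finrank ℝ (Fin (Module.finrank ℝ E) → ℝ) = Module.finrank ℝ E := by simp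
  let e : (Fin (Module.finrank ℝ E) → ℝ) ≃L[ℝ] E := ContinuousLinearEquiv.ofFinrankEq hk
  have hν : (Measure.map e.symm μ).IsAddHaarMeasure := e.symm.isAddHaarMeasure_map μ
  have heq := Measure.isAddLeftInvariant_eq_smul (Measure.map e.symm μ)
    (volume : Measure (Fin (Module.finrank ℝ E) → ℝ))
  have hval : ∀ S : Set E, MeasurableSet S →
      μ S = Measure.addHaarScalarFactor (Measure.map e.symm μ)
        (volume : Measure (Fin (Module.finrank ℝ E) → ℝ)) • volume (e ⁻¹' S) := by
    intro S hS
    have h1 : Measure.map e.symm μ (e ⁻¹' S) = μ S := by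
      rw [Measure.map_apply e.symm.continuous.measurable (e.continuous.measurable hS)]
      congr 1
      ext x
      simp
    rw [← h1]
    conv_lhs => rw [heq]
    rfl
  rw [hval A hA, hval _ isClosed_closedBall.measurableSet]
  have := isod_vol e hA hR
  gcongr

theorem st_ISOD : ST_ISOD := by
  intro E _ _ _ _ _ μ _ A
  set d := Module.finrank ℝ E with hd
  have hunit : μ (closedBall (0 : E) 1) = μ (ball (0 : E) 1) :=
    Measure.addHaar_unitClosedBall_eq_addHaar_unitBall μ
  have hpos : μ (closedBall (0 : E) 1) ≠ 0 :=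
    (measure_closedBall_pos μ _ one_pos).ne'
  rcases Set.eq_empty_or_nonempty A with hAe | hAne
  · subst hAe; simp
  by_cases htop : ediam A = ⊤
  · rcases Nat.eq_zero_or_pos d with h0 | h0
    · have hsub : Subsingleton E := Module.finrank_zero_iff.mp (hd ▸ h0)
      exfalso
      have : ediam A = 0 := ediam_eq_zero_iff.mpr (Set.subsingleton_of_subsingleton)
      rw [this] at htop
      exact ENNReal.zero_ne_top htop
    · rw [htop, ENNReal.top_rpow_of_pos (by exact_mod_cast h0), ENNReal.top_mul hpos]
      exact le_top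
  · have hcl : ediam (closure A) = ediam A := ediam_closure A
    set D := (ediam A).toReal with hD
    have hDnn : 0 ≤ D := ENNReal.toReal_nonneg
    have hR : ∀ x ∈ closure A, ∀ y ∈ closure A, ‖x - y‖ ≤ 2 * (D / 2) := by
      intro x hx y hy
      have h1 : edist x y ≤ ediam (closure A) := edist_le_ediam_of_mem hx hy
      rw [hcl] at h1
      have h2 := ENNReal.toReal_mono htop h1
      rw [edist_dist, ENNReal.toReal_ofReal dist_nonneg, dist_eq_norm] at h2
      linarith
    have h1 : μ A ≤ μ (closedBall (0 : E) (D / 2)) :=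
      (measure_mono subset_closure).trans (isod_meas μ isClosed_closure.measurableSet hR)
    rw [Measure.addHaar_closedBall μ 0 (by positivity : (0 : ℝ) ≤ D / 2)] at h1
    rw [hunit]
    calc μ A * 2 ^ d ≤ (ENNReal.ofReal ((D / 2) ^ d) * μ (ball (0 : E) 1)) * 2 ^ d := by
          gcongr
      _ = (ENNReal.ofReal ((D / 2) ^ d) * 2 ^ d) * μ (ball (0 : E) 1) := by ring
      _ = ediam A ^ (d : ℝ) * μ (ball (0 : E) 1) := by
          congr 1
          rw [ENNReal.rpow_natCast, ← ENNReal.ofReal_toReal htop, ← hD,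
            ← ENNReal.ofReal_pow hDnn, show (2 : ℝ≥0∞) = ENNReal.ofReal 2 by simp,
            ← ENNReal.ofReal_pow (by norm_num), ← ENNReal.ofReal_mul (by positivity)]
          congr 1
          rw [div_pow]
          field_simp

end Pool.Agent.Helper44.GF
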